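import Pool.Agent.H93.EG.Targets

/-!
# Invariant functions of polygonal billiards: Green's identity (row A_AG2)
-/

namespace Pool.Agent.H67.EG

open MeasureTheory Set Metric Filter Topology Pool.Agent.H93.EG
open Pool.Agent.H93.BL hiding T_B1 T_B2 T_B3 T_SB T_SC
open Pool.Agent.H93.EN
open scoped ContDiff

namespace AG2

/-- integrand of the right side of the identity -/
noncomputable def gr (G : ℂ → ℂ → ℝ) (N : ℂ → ℂ → ℂ) (k : ℤ) (η : ℂ → ℝ) (x : ℂ) : ℝ :=
  ((starRingEnd ℂ) (um G k x) *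
    ((fderiv ℝ η x 1 : ℂ) * uy N k x - (fderiv ℝ η x Complex.I : ℂ) * ux N k x)).im

lemma gid_iff (Ω : Set ℂ) (G : ℂ → ℂ → ℝ) (N : ℂ → ℂ → ℂ) (k : ℤ) (η : ℂ → ℝ) :
    GId Ω G N k η ↔ ∫ x in Ω, η x * ((starRingEnd ℂ) (ux N k x) * uy N k x).im =
      -(1 / 2) * ∫ x in Ω, gr G N k η x := Iff.rfl

lemma gr_zero (G : ℂ → ℂ → ℝ) (N : ℂ → ℂ → ℂ) (k : ℤ) {η : ℂ → ℝ} {x : ℂ}
    (h : x ∉ tsupport η) : gr G N k η x = 0 := by
  unfold gr
  rw [fderiv_of_notMem_tsupport ℝ h]
  simp

lemma gr_sum (G : ℂ → ℂ → ℝ) (N : ℂ → ℂ → ℂ) (k : ℤ) {n : ℕ} {η : ℂ → ℝ}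
    {g : Fin n → ℂ → ℝ} (hg : ∀ i, ContDiff ℝ 2 (g i)) (hs : ∀ x, η x = ∑ i, g i x) (x : ℂ) :
    gr G N k η x = ∑ i, gr G N k (g i) x := by
  have e : η = fun y => ∑ i, g i y := funext hs
  have h1 : fderiv ℝ η x = ∑ i, fderiv ℝ (g i) x := by
    rw [e]
    exact fderiv_fun_sum fun i _ => (hg i).differentiable (by simp) x
  unfold gr
  rw [h1, ← Complex.im_sum]
  congr 1
  rw [← Finset.mul_sum]
  congr 1
  rw [Finset.sum_sub_distrib, ← Finset.sum_mul, ← Finset.sum_mul]
  simp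

lemma md_zero (k : ℤ) : md (fun _ => (0 : ℝ)) k = 0 := by
  unfold md
  simp

/-- if the supports do not meet the table, the identity is trivial -/
lemma gid_of_zero {Ω : Set ℂ} {G : ℂ → ℂ → ℝ} {N : ℂ → ℂ → ℂ} {k : ℤ} {η : ℂ → ℝ}
    (h : ∀ x ∈ Ω, x ∉ tsupport η ∨ (∀ w, G x w = 0) ∧ ∀ w, N x w = 0) : GId Ω G N k η := by
  rw [gid_iff, setIntegral_eq_zero_of_forall_eq_zero, setIntegral_eq_zero_of_forall_eq_zero,
    mul_zero]
  · intro x hx
    rcases h x hx with h | ⟨h1, h2⟩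
    · exact gr_zero G N k h
    · have e1 : um G k x = 0 := by
        unfold um
        rw [show G x = fun _ => (0 : ℝ) from funext h1]
        exact md_zero k
      unfold gr
      rw [e1]
      simp
  · intro x hx
    rcases h x hx with h | ⟨h1, h2⟩
    · rw [image_eq_zero_of_notMem_tsupport h, zero_mul]
    · have e1 : ux N k x = 0 := by
        unfold ux
        simp only [h2, Complex.zero_re]
        exact md_zero k
      rw [e1]
      simp

end AG2

open AG2 in
theorem ag2 (h1 : T_AI) (h2 : T_AS) (h3 : T_PU) (h4 : T_AB) : T_AG2 := by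
  intro ι _ P δ G N hδ hSm η hη hηc k
  obtain ⟨hΩf, hΩm, C, hC0, hC⟩ := h4 ι P δ G N hδ hSm
  have key : ∀ x ∈ tsupport η, ∃ r > (0 : ℝ), ∀ g : ℂ → ℝ, ContDiff ℝ 2 g →
      tsupport g ⊆ ball x r → GId P.Ω G N k g := by
    intro x hx
    by_cases hxΩ : x ∈ P.Ω
    · obtain ⟨s, hs, h⟩ := h1 ι P δ G N hδ hSm x hxΩ
      exact ⟨s, hs, fun g hg hgs => h g hg hgs k⟩
    by_cases hxc : x ∈ closure P.Ω
    · have hfr : x ∈ frontier P.Ω := by
        rw [frontier, P.isOpen.interior_eq]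
        exact ⟨hxc, hxΩ⟩
      rw [P.frontier_eq, mem_iUnion] at hfr
      obtain ⟨i, hi⟩ := hfr
      have hv : P.Vtx x → ∃ r > (0 : ℝ), ∀ g : ℂ → ℝ, ContDiff ℝ 2 g →
          tsupport g ⊆ ball x r → GId P.Ω G N k g := by
        intro hv
        obtain ⟨s, hs, h⟩ := hSm.vert x hv
        refine ⟨s, hs, fun g _ hgs => gid_of_zero fun y hy => ?_⟩
        by_cases hyg : y ∈ tsupport g
        · exact Or.inr (h y (hgs hyg) hy)
        · exact Or.inl hyg
      by_cases hp : P.p i = x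
      · exact hv ⟨i, Or.inl hp.symm⟩
      by_cases hq : P.q i = x
      · exact hv ⟨i, Or.inr hq.symm⟩
      obtain ⟨s, hs, h⟩ := h2 ι P δ G N hδ hSm i x (mem_openSegment_of_ne_left_right hp hq hi)
      exact ⟨s, hs, fun g hg hgs => h g hg hgs k⟩
    · obtain ⟨r, hr0, hr⟩ := Metric.isOpen_iff.1 isClosed_closure.isOpen_compl x hxc
      exact ⟨r, hr0, fun g _ hgs => gid_of_zero fun y hy =>
        Or.inl fun hyg => hr (hgs hyg) (subset_closure hy)⟩
  choose! r hr using key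
  obtain ⟨n, c, g, hg, hsum⟩ := h3 η r hη hηc fun x hx => (hr x hx).1
  have hG : ∀ i, GId P.Ω G N k (g i) := fun i =>
    (hr (c i) (hg i).1).2 (g i) (hg i).2.1 (hg i).2.2.1
  have hgc : ∀ i, HasCompactSupport (g i) := fun i =>
    hηc.of_isClosed_subset (isClosed_tsupport _) (hg i).2.2.2
  obtain ⟨⟨hum, hum1⟩, ⟨hux, hux1⟩, ⟨huy, huy1⟩, _⟩ := hC k
  have : IsFiniteMeasure (volume.restrict P.Ω) := ⟨by rwa [Measure.restrict_apply_univ]⟩
  have hI1 : ∀ i, IntegrableOn
      (fun x => g i x * ((starRingEnd ℂ) (ux N k x) * uy N k x).im) P.Ω := by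
    intro i
    obtain ⟨D, hD⟩ := (hgc i).exists_bound_of_continuous (hg i).2.1.continuous
    refine Measure.integrableOn_of_bounded (M := D * (C * C)) hΩf.ne ?_ ?_
    · refine Measurable.aestronglyMeasurable ?_
      refine (hg i).2.1.continuous.measurable.mul ?_
      exact Complex.measurable_im.comp
        ((Complex.continuous_conj.measurable.comp hux).mul huy)
    · refine Eventually.of_forall fun x => ?_
      have hD0 : 0 ≤ D := (norm_nonneg _).trans (hD x)
      rw [norm_mul]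
      refine mul_le_mul (hD x) ?_ (norm_nonneg _) hD0
      refine (Complex.abs_im_le_norm _).trans ?_
      rw [norm_mul, RCLike.norm_conj]
      exact mul_le_mul (hux1 x) (huy1 x) (norm_nonneg _) hC0
  have hI2 : ∀ i, IntegrableOn (fun x => gr G N k (g i) x) P.Ω := by
    intro i
    have hd : ∀ v : ℂ, Continuous (fun x => fderiv ℝ (g i) x v) ∧
        ∃ C, ∀ x, ‖fderiv ℝ (g i) x v‖ ≤ C := by
      intro v
      have hcd : Continuous (fderiv ℝ (g i)) := (hg i).2.1.continuous_fderiv (by simp)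
      have hcv : Continuous (fun x => fderiv ℝ (g i) x v) := hcd.clm_apply continuous_const
      exact ⟨hcv, ((hgc i).fderiv_apply ℝ v).exists_bound_of_continuous hcv⟩
    obtain ⟨hc1, D1, hD1⟩ := hd 1
    obtain ⟨hc2, D2, hD2⟩ := hd Complex.I
    refine Measure.integrableOn_of_bounded (M := 1 * (D1 * C + D2 * C)) hΩf.ne ?_ ?_
    · refine Measurable.aestronglyMeasurable ?_
      refine Complex.measurable_im.comp
        ((Complex.continuous_conj.measurable.comp hum).mul (Measurable.sub ?_ ?_))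
      · exact (Complex.continuous_ofReal.comp hc1).measurable.mul huy
      · exact (Complex.continuous_ofReal.comp hc2).measurable.mul hux
    · refine Eventually.of_forall fun x => ?_
      have hD10 : 0 ≤ D1 := (norm_nonneg _).trans (hD1 x)
      have hD20 : 0 ≤ D2 := (norm_nonneg _).trans (hD2 x)
      refine (Complex.abs_im_le_norm _).trans ?_
      rw [norm_mul, RCLike.norm_conj]
      refine mul_le_mul (hum1 x) ?_ (norm_nonneg _) zero_le_one
      refine (norm_sub_le _ _).trans ?_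
      rw [norm_mul, norm_mul, Complex.norm_real, Complex.norm_real]
      exact add_le_add (mul_le_mul (hD1 x) (huy1 x) (norm_nonneg _) hD10)
        (mul_le_mul (hD2 x) (hux1 x) (norm_nonneg _) hD20)
  rw [gid_iff]
  have e1 : ∫ x in P.Ω, η x * ((starRingEnd ℂ) (ux N k x) * uy N k x).im =
      ∑ i, ∫ x in P.Ω, g i x * ((starRingEnd ℂ) (ux N k x) * uy N k x).im := by
    rw [← integral_finsetSum _ fun i _ => hI1 i]
    refine integral_congr_ae (Eventually.of_forall fun x => ?_)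
    simp only
    rw [hsum x, Finset.sum_mul]
  have e2 : ∫ x in P.Ω, gr G N k η x = ∑ i, ∫ x in P.Ω, gr G N k (g i) x := by
    rw [← integral_finsetSum _ fun i _ => hI2 i]
    refine integral_congr_ae (Eventually.of_forall fun x => ?_)
    exact gr_sum G N k (fun i => (hg i).2.1) hsum x
  rw [e1, e2, Finset.mul_sum]
  exact Finset.sum_congr rfl fun i _ => (gid_iff _ _ _ _ _).1 (hG i)

end Pool.Agent.H67.EG
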