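import Pool.Agent.H75.ERG.Targets

/-!
# Invariant functions of polygonal billiards: the extensions are bounded and measurable
(row C_BDG; the proof is that of row BD of en_modules)
-/

namespace Pool.Agent.H67.EG

open MeasureTheory Set Metric Filter Topology Pool.Agent.H93.BL
open Pool.Agent.H93.EN (av md rf chi gchi Bd Ml Nl Inv Agr sg VV Chart LS Phi)
open Pool.Agent.H93.EG (InvG Sm gN hN nrm)
open Pool.Agent.H75.ERG

theorem bdg : T_BDG := by
  intro ι P G hm hb ho τ
  obtain ⟨R₀, hR₀⟩ := P.isBounded.exists_norm_le
  have hout : ∀ y w, R₀ < ‖y‖ → G y w = 0 := by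
    intro y w hy
    apply ho
    intro hm
    exact absurd (hR₀ y hm) (not_le.2 hy)
  cases τ with
  | none => exact ⟨hm, hb, R₀, hout⟩
  | some j =>
    have hsg : Measurable fun p : ℂ × ℂ => sg P j p.1 := by
      have h1 : Continuous fun p : ℂ × ℂ => sg P j p.1 := by
        unfold sg cr
        fun_prop
      exact h1.measurable
    have haff : Continuous (P.aff j) := by
      unfold Polygon.aff
      exact continuous_const.add (continuous_const.mul
        (Complex.continuous_conj.comp (continuous_id.sub continuous_const)))
    have hrefl : Continuous (P.refl j) := by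
      unfold Polygon.refl
      exact continuous_const.mul Complex.continuous_conj
    refine ⟨?_, ?_, R₀ + 2 * ‖P.p j‖, ?_⟩
    · have h2 : Measurable fun p : ℂ × ℂ => G (P.aff j p.1) (P.refl j p.2) := by
        have h3 : Measurable fun p : ℂ × ℂ => (P.aff j p.1, P.refl j p.2) :=
          ((haff.comp continuous_fst).prodMk (hrefl.comp continuous_snd)).measurable
        exact hm.comp h3
      exact Measurable.ite (measurableSet_lt measurable_const hsg) hm h2
    · intro y w
      show 0 ≤ (if 0 < sg P j y then G y w else G (P.aff j y) (P.refl j w)) ∧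
        (if 0 < sg P j y then G y w else G (P.aff j y) (P.refl j w)) ≤ 1
      by_cases h : 0 < sg P j y
      · rw [if_pos h]; exact hb _ _
      · rw [if_neg h]; exact hb _ _
    · intro y w hy
      show (if 0 < sg P j y then G y w else G (P.aff j y) (P.refl j w)) = 0
      have hp : 0 ≤ ‖P.p j‖ := norm_nonneg _
      by_cases h : 0 < sg P j y
      · rw [if_pos h]
        exact hout y w (by linarith)
      · rw [if_neg h]
        apply hout
        have h4 : P.aff j y - P.p j = P.refl j (y - P.p j) := by
          rw [P.aff_eq]; ring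
        have h5 : ‖P.aff j y - P.p j‖ = ‖y - P.p j‖ := by rw [h4, P.norm_refl]
        have h6 : ‖P.aff j y - P.p j‖ ≤ ‖P.aff j y‖ + ‖P.p j‖ := norm_sub_le _ _
        have h7 : ‖y‖ ≤ ‖y - P.p j‖ + ‖P.p j‖ := by
          have := norm_add_le (y - P.p j) (P.p j)
          rwa [sub_add_cancel] at this
        linarith

end Pool.Agent.H67.EG
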